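import Pool.Agent.V113.Gol2.Norm
import Pool.Agent.V113.Gol.Conv

/-!
# MP_811251_al: the permanental ring of the generic `3 × 6` Hankel matrix is Golod

Let `k` be a field with `2 ≠ 0` and `R = k[y_1, …, y_8] / P_2` for the generic `3 × 6` Hankel
matrix. The relations give `y_i y_j = 0` for `6 ≤ i + j ≤ 12`, and with `ℓ = y_1 + y_8` the maximal
ideal satisfies `𝔪² = ℓ 𝔪` with `ℓ` regular. Cycles of positive degree lie in `𝔪 K`, so a product
of two of them is `ℓ w = d (e w)` with `w` a cycle, which gives a trivial Massey operation.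

The definitions are in `Pool.Agent.V113.Gol.Stmt` and `Pool.Agent.V113.Gol2.Stmt`.
-/

set_option autoImplicit false

namespace Pool.Agent.Results.MP_811251_al.HankelGolod

open Pool.Agent.V113

universe u

/-- **The result.** -/
theorem result (k : Type u) [Field k] (h2 : (2 : k) ≠ 0) :
    Gol.Stmt.IsGolod (Gol2.Stmt.P2 (Gol2.Stmt.hankel k 3 6)) :=
  Gol.Conv.conv _ (Gol2.golod_II h2)

end Pool.Agent.Results.MP_811251_al.HankelGolod
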